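import Pool.Agent.helper87.PI.Defs

/-!
# Palette index (MP_93b131_co), module E3: from simple bipartite graphs to bipartite multigraphs
-/

set_option autoImplicit false

namespace Pool.Agent.helper87.PI

open Finset

/-- the slots of a class of `m` parallel edges -/
def E3_T (m : ℕ) : Finset ((_ : ℕ) × ℕ) := m.bitIndices.toFinset.sigma fun k => range (2 ^ k)

theorem E3_card (m : ℕ) : (E3_T m).card = m := by
  unfold E3_T
  rw [Finset.card_sigma]
  simp only [card_range]
  exact sum_toFinset_bitIndices_two_pow m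

theorem E3_mem (m : ℕ) (q : (_ : ℕ) × ℕ) : q ∈ E3_T m ↔ q.1 ∈ m.bitIndices ∧ q.2 < 2 ^ q.1 := by
  unfold E3_T
  rw [Finset.mem_sigma, List.mem_toFinset, Finset.mem_range]

/-- pi:E3 -- from simple bipartite graphs to bipartite multigraphs -/
theorem digits (J N : ℕ)
    (hN : ∀ (X Y : Type) [Fintype X] [Fintype Y] [DecidableEq X] [DecidableEq Y]
      (E : Finset (X × Y)), (∀ x, dX E x < 2 ^ J) → (∀ y, dY E y < 2 ^ J) → Good E N)
    (ι X Y : Type) [Fintype X] [Fintype Y] [DecidableEq X] [DecidableEq Y] [DecidableEq ι]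
    (F : Finset ι) (a : ι → X) (b : ι → Y)
    (ha : ∀ x, (F.filter (fun i => a i = x)).card < 2 ^ J)
    (hb : ∀ y, (F.filter (fun i => b i = y)).card < 2 ^ J) :
    ∃ c : ι → ℕ, (∀ i ∈ F, ∀ j ∈ F, i ≠ j → (a i = a j ∨ b i = b j) → c i ≠ c j) ∧
      ((univ.image (fun x => (F.filter (fun i => a i = x)).image c)) ∪
       (univ.image (fun y => (F.filter (fun i => b i = y)).image c))).card ≤ N ^ J := by
  classical
  set cl : X × Y → Finset ι := fun e => F.filter (fun i => (a i, b i) = e) with hcl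
  set μ : X × Y → ℕ := fun e => (cl e).card with hμ
  -- the slots
  have hg : ∃ g : ι → (_ : ℕ) × ℕ, (∀ i ∈ F, g i ∈ E3_T (μ (a i, b i))) ∧
      (∀ i ∈ F, ∀ j ∈ F, (a i, b i) = (a j, b j) → g i = g j → i = j) ∧
      ∀ e, ∀ t ∈ E3_T (μ e), ∃ i ∈ F, (a i, b i) = e ∧ g i = t := by
    have hc : ∀ e, (cl e).card = (E3_T (μ e)).card := fun e => (E3_card _).symm
    refine ⟨fun i => if h : i ∈ cl (a i, b i) then
      ((Finset.equivOfCardEq (hc (a i, b i))) ⟨i, h⟩).1 else ⟨0, 0⟩, ?_, ?_, ?_⟩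
    · intro i hi
      have h : i ∈ cl (a i, b i) := Finset.mem_filter.2 ⟨hi, rfl⟩
      simp only [dif_pos h]
      exact Subtype.prop _
    · intro i hi j hj hij hgg
      have h : i ∈ cl (a i, b i) := Finset.mem_filter.2 ⟨hi, rfl⟩
      have h' : j ∈ cl (a j, b j) := Finset.mem_filter.2 ⟨hj, rfl⟩
      simp only [dif_pos h, dif_pos h'] at hgg
      have key : ∀ e (he : e = (a i, b i)) (h'' : j ∈ cl e),
          ((Finset.equivOfCardEq (hc (a i, b i))) ⟨i, h⟩).1 =
            ((Finset.equivOfCardEq (hc e)) ⟨j, h''⟩).1 → i = j := by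
        rintro e rfl h'' h3
        have h4 := (Finset.equivOfCardEq (hc (a i, b i))).injective (Subtype.ext h3)
        exact congrArg Subtype.val h4
      exact key _ hij.symm h' hgg
    · intro e t ht
      obtain ⟨⟨i, hi⟩, hit⟩ := (Finset.equivOfCardEq (hc e)).surjective ⟨t, ht⟩
      have hi' := Finset.mem_filter.1 hi
      refine ⟨i, hi'.1, hi'.2, ?_⟩
      have key : ∀ e' (he : e' = e) (h : i ∈ cl e'),
          ((Finset.equivOfCardEq (hc e')) ⟨i, h⟩).1 = t := by
        rintro e' rfl h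
        rw [hit]
      have h : i ∈ cl (a i, b i) := Finset.mem_filter.2 ⟨hi'.1, rfl⟩
      simp only [dif_pos h]
      exact key _ hi'.2 h
  obtain ⟨g, hg1, hg2, hg3⟩ := hg
  -- the simple graphs
  set E : ℕ → Finset (X × Y) := fun k => univ.filter (fun e => k ∈ (μ e).bitIndices) with hE
  have hpos : ∀ k e, k ∈ (μ e).bitIndices → 1 ≤ μ e := by
    intro k e h
    exact Nat.one_le_two_pow.trans (Nat.two_pow_le_of_mem_bitIndices h)
  have hdX : ∀ k x, dX (E k) x < 2 ^ J := by
    intro k x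
    refine lt_of_le_of_lt ?_ (ha x)
    unfold dX
    have h1 : ∀ e ∈ (E k).filter (fun e => e.1 = x), ∃ i ∈ F.filter (fun i => a i = x),
        (a i, b i) = e := by
      intro e he
      obtain ⟨he1, he2⟩ := Finset.mem_filter.1 he
      have h2 := hpos k e (Finset.mem_filter.1 he1).2
      obtain ⟨i, hi⟩ := Finset.card_pos.1 h2
      obtain ⟨hi1, hi2⟩ := Finset.mem_filter.1 hi
      refine ⟨i, Finset.mem_filter.2 ⟨hi1, ?_⟩, hi2⟩
      rw [← he2, ← hi2]
    refine (Finset.card_le_card fun e he => ?_).trans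
      (Finset.card_image_le (s := F.filter (fun i => a i = x)) (f := fun i => (a i, b i)))
    obtain ⟨i, hi, hie⟩ := h1 e he
    exact Finset.mem_image.2 ⟨i, hi, hie⟩
  have hdY : ∀ k y, dY (E k) y < 2 ^ J := by
    intro k y
    refine lt_of_le_of_lt ?_ (hb y)
    unfold dY
    have h1 : ∀ e ∈ (E k).filter (fun e => e.2 = y), ∃ i ∈ F.filter (fun i => b i = y),
        (a i, b i) = e := by
      intro e he
      obtain ⟨he1, he2⟩ := Finset.mem_filter.1 he
      have h2 := hpos k e (Finset.mem_filter.1 he1).2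
      obtain ⟨i, hi⟩ := Finset.card_pos.1 h2
      obtain ⟨hi1, hi2⟩ := Finset.mem_filter.1 hi
      refine ⟨i, Finset.mem_filter.2 ⟨hi1, ?_⟩, hi2⟩
      rw [← he2, ← hi2]
    refine (Finset.card_le_card fun e he => ?_).trans
      (Finset.card_image_le (s := F.filter (fun i => b i = y)) (f := fun i => (a i, b i)))
    obtain ⟨i, hi, hie⟩ := h1 e he
    exact Finset.mem_image.2 ⟨i, hi, hie⟩
  have hcol : ∀ k, ∃ c : X × Y → ℕ, Proper (E k) c ∧
      ((univ.image (palX (E k) c)) ∪ (univ.image (palY (E k) c))).card ≤ N :=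
    fun k => hN X Y (E k) (hdX k) (hdY k)
  choose c hc1 hc2 using hcol
  have hmemE : ∀ i ∈ F, (a i, b i) ∈ E (g i).1 := by
    intro i hi
    exact Finset.mem_filter.2 ⟨Finset.mem_univ _, ((E3_mem _ _).1 (hg1 i hi)).1⟩
  have hkJ : ∀ k e, k ∈ (μ e).bitIndices → k < J := by
    intro k e h
    have h1 := Nat.two_pow_le_of_mem_bitIndices h
    have h2 : μ e ≤ (F.filter (fun i => a i = e.1)).card := by
      apply Finset.card_le_card
      intro i hi
      obtain ⟨hi1, hi2⟩ := Finset.mem_filter.1 hi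
      exact Finset.mem_filter.2 ⟨hi1, by rw [← hi2]⟩
    have h3 := h1.trans_lt (h2.trans_lt (ha e.1))
    exact (Nat.pow_lt_pow_iff_right (by norm_num)).1 h3
  refine ⟨fun i => Nat.pair (g i).1 (Nat.pair (c (g i).1 (a i, b i)) (g i).2), ?_, ?_⟩
  · intro i hi j hj hij hab hcc
    simp only [Nat.pair_eq_pair] at hcc
    obtain ⟨h1, h2, h3⟩ := hcc
    have hgg : g i = g j := by
      have : ∀ q r : (_ : ℕ) × ℕ, q.1 = r.1 → q.2 = r.2 → q = r := by
        rintro ⟨q1, q2⟩ ⟨r1, r2⟩ h h'
        simp only at h h'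
        subst h h'
        rfl
      exact this _ _ h1 h3
    by_cases hee : (a i, b i) = (a j, b j)
    · exact hij (hg2 i hi j hj hee hgg)
    · have h4 := hmemE i hi
      have h5 := hmemE j hj
      rw [← h1] at h5
      rw [← h1] at h2
      exact hc1 _ _ h4 _ h5 hee hab h2
  · -- palettes
    set PP : Fin J → Finset (Finset ℕ) := fun k =>
      (univ.image (palX (E k) (c k))) ∪ (univ.image (palY (E k) (c k))) with hPP
    set Φ : (Fin J → Finset ℕ) → Finset ℕ := fun P =>
      univ.biUnion fun k : Fin J => (P k ×ˢ range (2 ^ (k : ℕ))).image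
        fun q => Nat.pair (k : ℕ) (Nat.pair q.1 q.2) with hΦ
    have hsub : (univ.image (fun x => (F.filter (fun i => a i = x)).image
          (fun i => Nat.pair (g i).1 (Nat.pair (c (g i).1 (a i, b i)) (g i).2)))) ∪
        (univ.image (fun y => (F.filter (fun i => b i = y)).image
          (fun i => Nat.pair (g i).1 (Nat.pair (c (g i).1 (a i, b i)) (g i).2)))) ⊆
        (Fintype.piFinset PP).image Φ := by
      intro Q hQ
      rcases Finset.mem_union.1 hQ with hQ | hQ
      · obtain ⟨x, _, rfl⟩ := Finset.mem_image.1 hQ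
        refine Finset.mem_image.2 ⟨fun k => palX (E k) (c k) x, ?_, ?_⟩
        · rw [Fintype.mem_piFinset]
          intro k
          exact Finset.mem_union_left _ (Finset.mem_image_of_mem _ (Finset.mem_univ _))
        · ext z
          simp only [hΦ, Finset.mem_biUnion, Finset.mem_univ, true_and, Finset.mem_image,
            Finset.mem_product, Finset.mem_range, Finset.mem_filter, palX]
          constructor
          · rintro ⟨k, ⟨col, l⟩, ⟨⟨e, ⟨he1, he2⟩, rfl⟩, hl⟩, rfl⟩
            have h1 : (⟨(k : ℕ), l⟩ : (_ : ℕ) × ℕ) ∈ E3_T (μ e) :=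
              (E3_mem _ _).2 ⟨(Finset.mem_filter.1 he1).2, hl⟩
            obtain ⟨i, hi, hie, hgi⟩ := hg3 e _ h1
            refine ⟨i, ⟨hi, ?_⟩, ?_⟩
            · rw [← he2, ← hie]
            · rw [hgi, hie]
          · rintro ⟨i, ⟨hi, hix⟩, rfl⟩
            have h1 := (E3_mem _ _).1 (hg1 i hi)
            refine ⟨⟨(g i).1, hkJ _ _ h1.1⟩, (c (g i).1 (a i, b i), (g i).2),
              ⟨⟨(a i, b i), ⟨hmemE i hi, hix⟩, rfl⟩, h1.2⟩, rfl⟩
      · obtain ⟨y, _, rfl⟩ := Finset.mem_image.1 hQ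
        refine Finset.mem_image.2 ⟨fun k => palY (E k) (c k) y, ?_, ?_⟩
        · rw [Fintype.mem_piFinset]
          intro k
          exact Finset.mem_union_right _ (Finset.mem_image_of_mem _ (Finset.mem_univ _))
        · ext z
          simp only [hΦ, Finset.mem_biUnion, Finset.mem_univ, true_and, Finset.mem_image,
            Finset.mem_product, Finset.mem_range, Finset.mem_filter, palY]
          constructor
          · rintro ⟨k, ⟨col, l⟩, ⟨⟨e, ⟨he1, he2⟩, rfl⟩, hl⟩, rfl⟩
            have h1 : (⟨(k : ℕ), l⟩ : (_ : ℕ) × ℕ) ∈ E3_T (μ e) :=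
              (E3_mem _ _).2 ⟨(Finset.mem_filter.1 he1).2, hl⟩
            obtain ⟨i, hi, hie, hgi⟩ := hg3 e _ h1
            refine ⟨i, ⟨hi, ?_⟩, ?_⟩
            · rw [← he2, ← hie]
            · rw [hgi, hie]
          · rintro ⟨i, ⟨hi, hix⟩, rfl⟩
            have h1 := (E3_mem _ _).1 (hg1 i hi)
            refine ⟨⟨(g i).1, hkJ _ _ h1.1⟩, (c (g i).1 (a i, b i), (g i).2),
              ⟨⟨(a i, b i), ⟨hmemE i hi, hix⟩, rfl⟩, h1.2⟩, rfl⟩
    refine (Finset.card_le_card hsub).trans (Finset.card_image_le.trans ?_)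
    rw [Fintype.card_piFinset]
    calc ∏ k, (PP k).card ≤ ∏ _k : Fin J, N := Finset.prod_le_prod' fun k _ => hc2 k
      _ = N ^ J := by rw [Finset.prod_const, Finset.card_univ, Fintype.card_fin]

end Pool.Agent.helper87.PI
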