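import Pool.Agent.helper52.PI.C3

/-!
# Palette index (MP_93b131_co), module C4: iteration of the noise compensation
-/

set_option autoImplicit false

namespace Pool.Agent.helper87.PI

open Finset

section
variable {X Y : Type} [Fintype X]

theorem C4_bd_nonneg (φ : Y → X → ℝ) (hφ0 : ∀ y x, 0 ≤ φ y x) (a : Finset Y)
    (h1 : ∀ y ∈ a, ∑ x, φ y x = 1) (U : Finset X) : 0 ≤ bd φ a U := by
  unfold bd
  refine Finset.sum_nonneg fun y hy => ?_
  have h2 : 0 ≤ ∑ x ∈ U, φ y x := Finset.sum_nonneg fun x _ => hφ0 y x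
  have h3 : ∑ x ∈ U, φ y x ≤ 1 := by
    rw [← h1 y hy]
    exact Finset.sum_le_sum_of_subset_of_nonneg (Finset.subset_univ U) fun x _ _ => hφ0 y x
  exact mul_nonneg h2 (by linarith)

omit [Fintype X] in
theorem C4_mono (φ : Y → X → ℝ) (a : Finset Y) (f A B B' μ ε : ℝ) (hB : B ≤ B')
    (h : St φ a f A B μ ε) : St φ a f A B' μ ε := by
  obtain ⟨⟨n, ρ, e1, e2, e3⟩, e4⟩ := h
  refine ⟨⟨n, ρ, e1, e2, fun U => (e3 U).trans ?_⟩, e4⟩
  have : B * (U.card : ℝ) ≤ B' * (U.card : ℝ) := mul_le_mul_of_nonneg_right hB (Nat.cast_nonneg _)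
  linarith

end

/-- pi:C4 -- iteration of the stages (the constant `μ0` depends only on `κ` and `Λ`) -/
theorem deact (κ Λ : ℝ) (hΛ0 : 0 < Λ) (hκΛ : 1000000 * Λ ≤ κ) :
    ∃ μ0 : ℝ, 1 ≤ μ0 ∧ μ0 ≤ 2 ∧
      ∀ (X Y : Type) [Fintype X] [Fintype Y] [DecidableEq X] [DecidableEq Y]
        (φ : Y → X → ℝ) (_ : ∀ y x, 0 ≤ φ y x) (_ : ∀ y x, φ y x * κ ≤ 1)
        (a : Finset Y) (_ : ∀ y ∈ a, ∑ x, φ y x = 1) (Δ : ℕ)
        (_ : ∀ x, (a.filter (fun y => φ y x ≠ 0)).card ≤ Δ)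
        (_ : ∀ y ∈ a, (univ.filter (fun x => φ y x ≠ 0)).card ≤ Δ)
        (_ : 8 * ((Δ : ℝ) ^ 2 + 1) ≤ Real.exp Λ)
        (_ : ∀ x, |S φ a x - μ0| ≤ 3 * Real.sqrt (Λ / κ)),
        ∃ a' ⊆ a, ∀ U : Finset X,
          |∑ x ∈ U, S φ a' x - (1 + 1600 * (Λ / κ)) * (U.card : ℝ)| ≤
            (1 / 2) * bd φ a' U + 1600 * (Λ / κ) * (U.card : ℝ) := by
  have hκ : 0 < κ := by linarith
  set u : ℝ := Λ / κ with hu
  have hu0 : 0 < u := div_pos hΛ0 hκ
  have hu1 : u ≤ 1 / 1000000 := by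
    rw [hu, div_le_div_iff₀ hκ (by norm_num)]
    linarith
  set s : ℝ := Real.sqrt u with hs
  have hs0 : 0 < s := Real.sqrt_pos.2 hu0
  have hss : s * s = u := Real.mul_self_sqrt hu0.le
  have hs1 : s ≤ 1 / 1000 := by
    by_contra hn
    push Not at hn
    nlinarith
  -- the thresholds
  set f : ℕ → ℝ := fun i => 3 * s / 2 ^ i with hf
  have hf0 : ∀ i, 0 < f i := fun i => by simp only [hf]; positivity
  have hfs : ∀ i, f (i + 1) = f i / 2 := fun i => by
    simp only [hf]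
    rw [pow_succ]
    field_simp
  have hfle : ∀ i, f i ≤ 3 * s := fun i => by
    simp only [hf]
    rw [div_le_iff₀ (by positivity)]
    have : (1 : ℝ) ≤ 2 ^ i := one_le_pow₀ (by norm_num)
    nlinarith
  have hex : ∃ i, f i ≤ 160 * u := by
    obtain ⟨i, hi⟩ := pow_unbounded_of_one_lt (3 * s / (160 * u)) (by norm_num : (1 : ℝ) < 2)
    refine ⟨i, ?_⟩
    simp only [hf]
    rw [div_le_iff₀ (by positivity)]
    rw [div_lt_iff₀ (by positivity)] at hi
    linarith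
  classical
  set I := Nat.find hex with hI
  have hI1 : f I ≤ 160 * u := Nat.find_spec hex
  have hI2 : ∀ i < I, 160 * u < f i := fun i hi => not_le.1 (Nat.find_min hex hi)
  -- the product
  set P : ℕ → ℝ := fun i => ∏ j ∈ Finset.range i, (1 - 4 * f j) with hP
  have hP1 : ∀ i, 1 - 24 * s * (1 - 1 / 2 ^ i) ≤ P i ∧ P i ≤ 1 := by
    intro i
    induction i with
    | zero => simp [hP]
    | succ i ih =>
      have h1 : P (i + 1) = P i * (1 - 4 * f i) := by simp only [hP]; rw [Finset.prod_range_succ]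
      have h2 : f i = 3 * s * (1 / 2 ^ i) := by simp only [hf]; ring
      have h3 : (1 : ℝ) / 2 ^ (i + 1) = (1 / 2 ^ i) / 2 := by rw [pow_succ]; field_simp
      have h4 : 0 < f i := hf0 i
      have h5 := hfle i
      have h6 : (0 : ℝ) < 1 / 2 ^ i := by positivity
      have h7 : (1 : ℝ) / 2 ^ i ≤ 1 := by
        rw [div_le_one (by positivity)]
        exact one_le_pow₀ (by norm_num)
      have h8 : 0 ≤ P i := by nlinarith [ih.1]
      rw [h1, h3]
      constructor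
      · nlinarith [ih.1, ih.2]
      · nlinarith [ih.1, ih.2]
  have hPpos : ∀ i, 0 < P i := by
    intro i
    have h6 : (0 : ℝ) < 1 / 2 ^ i := by positivity
    nlinarith [(hP1 i).1]
  have hPI : 1 - 24 * s ≤ P I := by
    have h6 : (0 : ℝ) < 1 / 2 ^ I := by positivity
    nlinarith [(hP1 I).1]
  set μ0 : ℝ := (1 + 1600 * u) / P I with hμ0
  have hμ1 : 1 ≤ μ0 := by
    rw [hμ0, le_div_iff₀ (hPpos I)]
    linarith [(hP1 I).2]
  have hμ2 : μ0 ≤ 1 + 30 * s := by
    rw [hμ0, div_le_iff₀ (hPpos I)]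
    have h1 : (1 + 30 * s) * (1 - 24 * s) ≤ (1 + 30 * s) * P I :=
      mul_le_mul_of_nonneg_left hPI (by positivity)
    nlinarith
  have hμP : μ0 * P I = 1 + 1600 * u := by
    rw [hμ0, div_mul_cancel₀ _ (hPpos I).ne']
  refine ⟨μ0, hμ1, by linarith, ?_⟩
  intro X Y _ _ _ _ φ hφ0 hφκ a h1 Δ hdx hdy hΛ hS
  have key : ∀ i ≤ I, ∃ a' ⊆ a, St φ a' (f i) (12 * s * (1 - 1 / 2 ^ i))
      (1386 * u * (1 - 1 / 2 ^ i)) (P i * μ0) (33 * s + 66 * s * (1 - 1 / 2 ^ i)) := by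
    intro i
    induction i with
    | zero =>
      intro _
      refine ⟨a, Finset.Subset.refl _, ⟨⟨fun x => S φ a x - μ0, fun _ => 0, ?_, ?_, ?_⟩, ?_⟩⟩
      · intro x
        simp [hP]
      · intro x
        have : f 0 = 3 * s := by simp [hf]
        rw [this]
        exact hS x
      · intro U
        simp
      · intro x
        have h2 := abs_le.1 (hS x)
        rw [abs_le]
        simp only [pow_zero, div_one, sub_self, mul_zero, add_zero]
        constructor <;> linarith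
    | succ i ih =>
      intro hi
      obtain ⟨a', ha', hst⟩ := ih (by omega)
      have h6 : (0 : ℝ) < 1 / 2 ^ i := by positivity
      have h7 : (1 : ℝ) / 2 ^ i ≤ 1 := by
        rw [div_le_one (by positivity)]
        exact one_le_pow₀ (by norm_num)
      have h3 : (1 : ℝ) / 2 ^ (i + 1) = (1 / 2 ^ i) / 2 := by rw [pow_succ]; field_simp
      have h2 : f i = 3 * s * (1 / 2 ^ i) := by simp only [hf]; ring
      have h8 : 160 * Λ ≤ f i * κ := by
        have := hI2 i (by omega)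
        have h9 : u * κ = Λ := div_mul_cancel₀ _ hκ.ne'
        nlinarith
      obtain ⟨a'', ha'', hst'⟩ := stage φ hφ0 κ Λ (f i) hκ hφκ a' (fun y hy => h1 y (ha' hy)) Δ
        (fun x => (Finset.card_le_card (Finset.filter_subset_filter _ ha')).trans (hdx x))
        (fun y hy => hdy y (ha' hy)) hΛ h8 (by linarith [hfle i]) _ _ _ _
        (by apply mul_nonneg (by positivity); linarith)
        (by apply mul_nonneg (by positivity); linarith) (by nlinarith) hst
      refine ⟨a'', ha''.trans ha', ?_⟩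
      have e1 : f i / 2 = f (i + 1) := (hfs i).symm
      have e2 : 12 * s * (1 - 1 / 2 ^ i) + 2 * f i = 12 * s * (1 - 1 / 2 ^ (i + 1)) := by
        rw [h3, h2]; ring
      have e3 : (1 - 4 * f i) * (P i * μ0) = P (i + 1) * μ0 := by
        have h1 : P (i + 1) = P i * (1 - 4 * f i) := by simp only [hP]; rw [Finset.prod_range_succ]
        rw [h1]; ring
      have e4 : 33 * s + 66 * s * (1 - 1 / 2 ^ i) + 11 * f i =
          33 * s + 66 * s * (1 - 1 / 2 ^ (i + 1)) := by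
        rw [h3, h2]; ring
      rw [e1, e2, e3, e4] at hst'
      refine C4_mono φ a'' _ _ _ _ _ _ ?_ hst'
      rw [h3, h2, ← hss]
      set t : ℝ := 1 / 2 ^ i with ht
      nlinarith [mul_pos hs0 hs0, mul_nonneg (mul_nonneg hs0.le hs0.le) h6.le,
        mul_nonneg (mul_nonneg (mul_nonneg hs0.le hs0.le) h6.le) h6.le]
  obtain ⟨a', ha', ⟨⟨n, ρ, e1, e2, e3⟩, _⟩⟩ := key I le_rfl
  refine ⟨a', ha', fun U => ?_⟩
  have h6 : (0 : ℝ) < 1 / 2 ^ I := by positivity
  have h7 : (1 : ℝ) / 2 ^ I ≤ 1 := by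
    rw [div_le_one (by positivity)]
    exact one_le_pow₀ (by norm_num)
  have hbd : 0 ≤ bd φ a' U := C4_bd_nonneg φ hφ0 a' (fun y hy => h1 y (ha' hy)) U
  have h8 : ∑ x ∈ U, S φ a' x - (1 + 1600 * u) * (U.card : ℝ) = ∑ x ∈ U, ρ x + ∑ x ∈ U, n x := by
    have : ∀ x ∈ U, S φ a' x = (1 + 1600 * u) + (ρ x + n x) := by
      intro x _
      rw [e1 x, mul_comm, hμP]; ring
    rw [Finset.sum_congr rfl this,
      Finset.sum_add_distrib (f := fun _ => 1 + 1600 * u) (g := fun x => ρ x + n x),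
      Finset.sum_const, nsmul_eq_mul, Finset.sum_add_distrib]
    ring
  have h9 : |∑ x ∈ U, n x| ≤ 160 * u * (U.card : ℝ) := by
    refine (Finset.abs_sum_le_sum_abs _ _).trans ?_
    calc ∑ x ∈ U, |n x| ≤ ∑ x ∈ U, 160 * u := Finset.sum_le_sum fun x _ => (e2 x).trans hI1
      _ = 160 * u * (U.card : ℝ) := by rw [Finset.sum_const, nsmul_eq_mul]; ring
  rw [h8]
  refine (abs_add_le _ _).trans ?_
  have h10 := e3 U
  have h11 : 12 * s * (1 - 1 / 2 ^ I) * bd φ a' U ≤ 1 / 2 * bd φ a' U := by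
    apply mul_le_mul_of_nonneg_right _ hbd
    nlinarith
  have h12 : 1386 * u * (1 - 1 / 2 ^ I) * (U.card : ℝ) ≤ 1386 * u * (U.card : ℝ) := by
    apply mul_le_mul_of_nonneg_right _ (Nat.cast_nonneg _)
    nlinarith
  have h13 : 0 ≤ u * (U.card : ℝ) := mul_nonneg hu0.le (Nat.cast_nonneg _)
  linarith

end Pool.Agent.helper87.PI
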